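import Pool.Agent.Helper49.RU.St

/-! Module NRM of project RU: the norm of the ultrapower. -/

set_option autoImplicit false

namespace Pool.Agent.Helper29.RU

open Pool.Agent.Helper49.RU
open MeasureTheory Filter Topology Complex
open scoped ENNReal Cardinal ComplexConjugate

/-- NRM. -/
theorem hNRM : StNRM := by
  intro U X _ _ f r hf
  have hr : 0 ≤ r := by
    obtain ⟨n, hn⟩ := hf.exists
    exact (norm_nonneg _).trans hn
  classical
  have hmem : Memℓp (fun n => if ‖f n‖ ≤ r then f n else 0) ∞ := by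
    refine memℓp_infty ⟨r, ?_⟩
    rintro _ ⟨n, rfl⟩
    change ‖if ‖f n‖ ≤ r then f n else 0‖ ≤ r
    split_ifs with h
    · exact h
    · rw [norm_zero]
      exact hr
  obtain ⟨g, hg⟩ : ∃ g : BS X, ∀ n, g n = if ‖f n‖ ≤ r then f n else 0 :=
    ⟨⟨_, hmem⟩, fun n => rfl⟩
  have hgr : ‖g‖ ≤ r := by
    refine lp.norm_le_of_forall_le hr (fun n => ?_)
    rw [hg]
    split_ifs with h
    · exact h
    · rw [norm_zero]
      exact hr
  have hfg : f - g ∈ nullU U X := by
    rw [mem_nullU]
    refine tendsto_const_nhds.congr' ?_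
    filter_upwards [hf] with n hn
    have : (f - g) n = f n - g n := rfl
    rw [this, hg, if_pos hn, sub_self, norm_zero]
  have hcl : cls U f = cls U g := by
    have h1 : cls U f - cls U g = cls U (f - g) := (map_sub _ _ _).symm
    have h2 : cls U (f - g) = 0 := (Submodule.Quotient.mk_eq_zero _).2 hfg
    rw [h2] at h1
    exact sub_eq_zero.1 h1
  rw [hcl]
  have h3 : ‖cls U g‖ ≤ ‖g‖ := Submodule.Quotient.norm_mk_le (nullU U X) g
  exact h3.trans hgr

end Pool.Agent.Helper29.RU
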